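import Pool.Agent.K4H11.DB.Odd3

/-!
# The colouring 0,1,0,2,0,1,0,2,… for even `k ≥ 4`: the group contains a three-cycle
-/

set_option autoImplicit false

open Equiv MulAction

namespace Pool.Agent.K4H11.DB

theorem p20 {X : Type} (σ : Perm X) (v : X) (h : (σ ^ 4) v = v) : (σ ^ 20) v = v := by
  have h1 : σ ^ 20 = (σ ^ 4) ^ 5 := by rw [← pow_mul]
  rw [h1]
  exact Perm.pow_apply_eq_self_of_apply_eq_self h 5

theorem p20' {X : Type} (σ : Perm X) (v : X) (h : (σ ^ 5) v = v) : (σ ^ 20) v = v := by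
  have h1 : σ ^ 20 = (σ ^ 5) ^ 4 := by rw [← pow_mul]
  rw [h1]
  exact Perm.pow_apply_eq_self_of_apply_eq_self h 4

theorem p20s {X : Type} (σ : Perm X) (x y z : X) (h1 : σ x = y) (h2 : σ y = z) (h3 : σ z = x) :
    (σ ^ 20) x = z := by
  have h4 : (σ ^ 3) x = x := by simp [pow_succ, Perm.mul_apply, h1, h2, h3]
  have h5 : σ ^ 20 = σ ^ 2 * (σ ^ 3) ^ 6 := by rw [← pow_mul, ← pow_add]
  rw [h5, Perm.mul_apply, Perm.pow_apply_eq_self_of_apply_eq_self h4 6]
  simp [pow_succ, Perm.mul_apply, h1, h2]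

theorem pow5 {α : Type} (σ : Perm α) (v : α) : (σ ^ 5) v = σ (σ (σ (σ (σ v)))) := by
  simp [pow_succ, Perm.mul_apply]

/-- shape `β, α, β, α` -/
theorem comp5 {X : Type} (α β : Perm X) (v0 v1 v2 v3 v4 : X) (a0 : α v0 = v0) (b0 : β v0 = v1) (b1 : β v1 = v0)
    (a1 : α v1 = v2) (a2 : α v2 = v1) (b2 : β v2 = v3) (b3 : β v3 = v2) (a3 : α v3 = v4) (a4 : α v4 = v3)
    (b4 : β v4 = v4) :
    ((α * β) ^ 5) v0 = v0 ∧ ((α * β) ^ 5) v1 = v1 ∧ ((α * β) ^ 5) v2 = v2 ∧ ((α * β) ^ 5) v3 = v3 ∧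
      ((α * β) ^ 5) v4 = v4 := by
  simp only [pow5, Perm.mul_apply, a0, b0, b1, a1, a2, b2, b3, a3, a4, b4, and_self]

theorem even3 (k : ℕ) (hk : 4 ≤ k) (he : k % 2 = 0) (c : Fin k → ZMod 3)
    (hc : ∀ j : Fin k, c j = if (j : ℕ) % 4 = 1 then 1 else if (j : ℕ) % 4 = 3 then 2 else 0)
    (ρ : ZMod 3 → Perm (V k)) (hρ : ∀ a, IsRho c a (ρ a)) : ∃ σ ∈ G ρ, σ.IsThreeCycle := by
  have mem : ∀ a, ρ a ∈ G ρ := fun a => Subgroup.subset_closure ⟨a, rfl⟩
  refine ⟨(ρ 1 * ρ 2) ^ 20, pow_mem (mul_mem (mem 1) (mem 2)) 20, ?_⟩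
  -- colours
  have c0 : ∀ (d : ℕ) (hd : d < k), d % 4 = 0 → c ⟨d, hd⟩ = 0 := fun d hd h => by rw [hc]; simp [h]
  have c1 : ∀ (d : ℕ) (hd : d < k), d % 4 = 1 → c ⟨d, hd⟩ = 1 := fun d hd h => by rw [hc]; simp [h]
  have c2 : ∀ (d : ℕ) (hd : d < k), d % 4 = 2 → c ⟨d, hd⟩ = 0 := fun d hd h => by rw [hc]; simp [h]
  have c3 : ∀ (d : ℕ) (hd : d < k), d % 4 = 3 → c ⟨d, hd⟩ = 2 := fun d hd h => by rw [hc]; simp [h]
  -- the path `P_1`: blocks of four
  have A : ∀ i : ℕ, 4 * i + 7 ≤ k → ∀ d, 4 * i + 4 ≤ d → d ≤ 4 * i + 7 →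
      ((ρ 1 * ρ 2) ^ 20) (pt k 1 d) = pt k 1 d := by
    intro i hi d h1 h2
    have e1 := edge hρ 1 (4 * i + 4) (by omega) 1 (by rw [c0 _ _ (by omega)]; decide)
    have e2 := edge hρ 1 (4 * i + 5) (by omega) 2 (by rw [c1 _ _ (by omega)]; decide)
    have e3 := edge hρ 1 (4 * i + 6) (by omega) 1 (by rw [c2 _ _ (by omega)]; decide)
    have f1 := fixp hρ 1 (4 * i + 3) (by omega) 2 (by rw [c3 _ _ (by omega)]; decide)
      (fun h => by rw [c0 _ _ (by omega)]; decide)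
    have f2 := fixp hρ 1 (4 * i + 6) (by omega) 2 (by rw [c2 _ _ (by omega)]; decide)
      (fun h => by rw [c3 _ _ (by omega)]; decide)
    obtain ⟨g0, g1, g2, g3⟩ := comp4 (ρ 1) (ρ 2) (pt k 1 (4 * i + 4)) (pt k 1 (4 * i + 5)) (pt k 1 (4 * i + 6))
      (pt k 1 (4 * i + 7)) f1 e1.1 e1.2 e2.1 e2.2 e3.1 e3.2 f2
    apply p20
    have : d = 4 * i + 4 ∨ d = 4 * i + 5 ∨ d = 4 * i + 6 ∨ d = 4 * i + 7 := by omega
    rcases this with rfl | rfl | rfl | rfl
    · exact g0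
    · exact g1
    · exact g2
    · exact g3
  -- the path `P_2`: blocks of four
  have B : ∀ i : ℕ, 4 * i + 5 ≤ k → ∀ d, 4 * i + 2 ≤ d → d ≤ 4 * i + 5 →
      ((ρ 1 * ρ 2) ^ 20) (pt k 2 d) = pt k 2 d := by
    intro i hi d h1 h2
    have e1 := edge hρ 2 (4 * i + 2) (by omega) 2 (by rw [c2 _ _ (by omega)]; decide)
    have e2 := edge hρ 2 (4 * i + 3) (by omega) 1 (by rw [c3 _ _ (by omega)]; decide)
    have e3 := edge hρ 2 (4 * i + 4) (by omega) 2 (by rw [c0 _ _ (by omega)]; decide)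
    have f1 := fixp hρ 2 (4 * i + 1) (by omega) 1 (by rw [c1 _ _ (by omega)]; decide)
      (fun h => by rw [c2 _ _ (by omega)]; decide)
    have f2 := fixp hρ 2 (4 * i + 4) (by omega) 1 (by rw [c0 _ _ (by omega)]; decide)
      (fun h => by rw [c1 _ _ (by omega)]; decide)
    obtain ⟨g0, g1, g2, g3⟩ := comp4' (ρ 1) (ρ 2) (pt k 2 (4 * i + 2)) (pt k 2 (4 * i + 3)) (pt k 2 (4 * i + 4))
      (pt k 2 (4 * i + 5)) f1 e1.1 e1.2 e2.1 e2.2 e3.1 e3.2 f2
    apply p20
    have : d = 4 * i + 2 ∨ d = 4 * i + 3 ∨ d = 4 * i + 4 ∨ d = 4 * i + 5 := by omega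
    rcases this with rfl | rfl | rfl | rfl
    · exact g0
    · exact g1
    · exact g2
    · exact g3
  -- the path `P_0`: pairs
  have C : ∀ i : ℕ, 2 * i + 2 ≤ k → ∀ d, 2 * i + 1 ≤ d → d ≤ 2 * i + 2 →
      ((ρ 1 * ρ 2) ^ 20) (pt k 0 d) = pt k 0 d := by
    intro i hi d h1 h2
    apply p20
    rcases Nat.even_or_odd' i with ⟨m, rfl | rfl⟩
    · have e1 := edge hρ 0 (2 * (2 * m) + 1) (by omega) 1 (by rw [c1 _ _ (by omega)]; decide)
      have f1 := fixp hρ 0 (2 * (2 * m)) (by omega) 2 (by rw [c0 _ _ (by omega)]; decide)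
        (fun h => by rw [c1 _ _ (by omega)]; decide)
      have f2 := fixp hρ 0 (2 * (2 * m) + 1) (by omega) 2 (by rw [c1 _ _ (by omega)]; decide)
        (fun h => by rw [c2 _ _ (by omega)]; decide)
      obtain ⟨g0, g1⟩ := comp2 (ρ 1) (ρ 2) _ _ e1.1 e1.2 f1 f2
      have : d = 2 * (2 * m) + 1 ∨ d = 2 * (2 * m) + 2 := by omega
      rcases this with rfl | rfl
      · exact g0
      · exact g1
    · have e1 := edge hρ 0 (2 * (2 * m + 1) + 1) (by omega) 2 (by rw [c3 _ _ (by omega)]; decide)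
      have f1 := fixp hρ 0 (2 * (2 * m + 1)) (by omega) 1 (by rw [c2 _ _ (by omega)]; decide)
        (fun h => by rw [c3 _ _ (by omega)]; decide)
      have f2 := fixp hρ 0 (2 * (2 * m + 1) + 1) (by omega) 1 (by rw [c3 _ _ (by omega)]; decide)
        (fun h => by rw [c0 _ _ (by omega)]; decide)
      obtain ⟨g0, g1⟩ := comp2' (ρ 1) (ρ 2) _ _ f1 f2 e1.1 e1.2
      have : d = 2 * (2 * m + 1) + 1 ∨ d = 2 * (2 * m + 1) + 2 := by omega
      rcases this with rfl | rfl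
      · exact g0
      · exact g1
  -- the centre
  have D : ((ρ 1 * ρ 2) ^ 5) (pt k 2 1) = pt k 2 1 ∧ ((ρ 1 * ρ 2) ^ 5) (none : V k) = none ∧
      ((ρ 1 * ρ 2) ^ 5) (pt k 1 1) = pt k 1 1 ∧ ((ρ 1 * ρ 2) ^ 5) (pt k 1 2) = pt k 1 2 ∧
      ((ρ 1 * ρ 2) ^ 5) (pt k 1 3) = pt k 1 3 := by
    have e1 := edge hρ 2 0 (by omega) 2 (by rw [c0 _ _ (by omega)]; decide)
    have e2 := edge hρ 1 0 (by omega) 1 (by rw [c0 _ _ (by omega)]; decide)
    have e3 := edge hρ 1 1 (by omega) 2 (by rw [c1 _ _ (by omega)]; decide)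
    have e4 := edge hρ 1 2 (by omega) 1 (by rw [c2 _ _ (by omega)]; decide)
    have f1 := fixp hρ 2 0 (by omega) 1 (by rw [c0 _ _ (by omega)]; decide)
      (fun h => by rw [c1 _ _ (by omega)]; decide)
    have f2 := fixp hρ 1 2 (by omega) 2 (by rw [c2 _ _ (by omega)]; decide)
      (fun h => by rw [c3 _ _ (by omega)]; decide)
    rw [pt_zero] at e1 e2
    exact comp5 (ρ 1) (ρ 2) (pt k 2 1) none (pt k 1 1) (pt k 1 2) (pt k 1 3) f1 e1.2 e1.1 e2.1 e2.2 e3.1 e3.2
      e4.1 e4.2 f2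
  have tt : ∀ t : ZMod 3, t = 0 ∨ t = 1 ∨ t = 2 := by decide
  have vv : ∀ v : V k, v = none ∨ ∃ t d, 1 ≤ d ∧ d ≤ k ∧ v = pt k t d := by
    intro v
    rcases v with _ | ⟨t, j⟩
    · left; rfl
    · right
      refine ⟨t, j + 1, by omega, by have := j.2; omega, ?_⟩
      rw [pt_eq t (j + 1) ⟨by omega, by have := j.2; omega⟩]
      rfl
  have P0 : ∀ d, 1 ≤ d → d ≤ k → ((ρ 1 * ρ 2) ^ 20) (pt k 0 d) = pt k 0 d := fun d h1 h2 =>
    C ((d - 1) / 2) (by omega) d (by omega) (by omega)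
  rcases (by omega : k % 4 = 0 ∨ k % 4 = 2) with h4 | h4
  · -- special points on `P_2`: edges `k-1` (colour 2), `k` (colour 1)
    have e1 := edge hρ 2 (k - 2) (by omega) 2 (by rw [c2 _ _ (by omega)]; decide)
    have e2 := edge hρ 2 (k - 1) (by omega) 1 (by rw [c3 _ _ (by omega)]; decide)
    have f1 := fixp hρ 2 (k - 3) (by omega) 1 (by rw [c1 _ _ (by omega)]; decide)
      (fun h => by rw [c2 _ _ (by omega)]; decide)
    have f2 := fixp hρ 2 (k - 1) (by omega) 2 (by rw [c3 _ _ (by omega)]; decide)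
      (fun h => by omega)
    rw [show k - 2 + 1 = k - 1 by omega] at e1
    rw [show k - 1 + 1 = k by omega] at e2 f2
    rw [show k - 3 + 1 = k - 2 by omega] at f1
    have n1 : pt k 2 (k - 2) ≠ pt k 2 (k - 1) := fun h => by
      have := (pt_inj ⟨by omega, by omega⟩ ⟨by omega, by omega⟩ h).2; omega
    have n2 : pt k 2 (k - 1) ≠ pt k 2 k := fun h => by
      have := (pt_inj ⟨by omega, by omega⟩ ⟨by omega, by omega⟩ h).2; omega
    have n3 : pt k 2 (k - 2) ≠ pt k 2 k := fun h => by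
      have := (pt_inj ⟨by omega, by omega⟩ ⟨by omega, by omega⟩ h).2; omega
    -- `x → z → y → x` with `x = k-2`, `y = k-1`, `z = k`
    have s1 : (ρ 1 * ρ 2) (pt k 2 (k - 2)) = pt k 2 k := by rw [Perm.mul_apply, e1.1, e2.1]
    have s2 : (ρ 1 * ρ 2) (pt k 2 k) = pt k 2 (k - 1) := by rw [Perm.mul_apply, f2, e2.2]
    have s3 : (ρ 1 * ρ 2) (pt k 2 (k - 1)) = pt k 2 (k - 2) := by rw [Perm.mul_apply, e1.2, f1]
    apply three _ (pt k 2 (k - 2)) (pt k 2 (k - 1)) (pt k 2 k) n1 n2 n3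
    · rw [p20s _ _ _ _ s1 s2 s3]; exact n1.symm
    · rw [p20s _ _ _ _ s3 s1 s2]; exact n2.symm
    · rw [p20s _ _ _ _ s2 s3 s1]; exact n3
    · intro v
      rcases vv v with rfl | ⟨t, d, h1, h2, rfl⟩
      · left; exact p20' _ _ D.2.1
      rcases tt t with rfl | rfl | rfl
      · left; exact P0 d h1 h2
      · left
        by_cases hd : d ≤ 3
        · apply p20'
          rcases (by omega : d = 1 ∨ d = 2 ∨ d = 3) with rfl | rfl | rfl
          · exact D.2.2.1
          · exact D.2.2.2.1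
          · exact D.2.2.2.2
        · by_cases hd' : d = k
          · subst hd'
            have g1 := fixp hρ 1 (d - 1) (by omega) 1 (by rw [c3 _ _ (by omega)]; decide) (fun h => by omega)
            have g2 := fixp hρ 1 (d - 1) (by omega) 2 (by rw [c3 _ _ (by omega)]; decide) (fun h => by omega)
            rw [show d - 1 + 1 = d by omega] at g1 g2
            exact p20 _ _ (comp1 _ _ _ g1 g2)
          · exact A ((d - 4) / 4) (by omega) d (by omega) (by omega)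
      · by_cases hd : d = 1
        · left; subst hd; exact p20' _ _ D.1
        · by_cases hd' : d ≤ k - 3
          · left
            exact B ((d - 2) / 4) (by omega) d (by omega) (by omega)
          · right
            rcases (by omega : d = k - 2 ∨ d = k - 1 ∨ d = k) with h | h | h
            · left; rw [h]
            · right; left; rw [h]
            · right; right; rw [h]
  · -- special points on `P_1`: edges `k-1` (colour 1), `k` (colour 2)
    have e1 := edge hρ 1 (k - 2) (by omega) 1 (by rw [c0 _ _ (by omega)]; decide)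
    have e2 := edge hρ 1 (k - 1) (by omega) 2 (by rw [c1 _ _ (by omega)]; decide)
    have f1 := fixp hρ 1 (k - 3) (by omega) 2 (by rw [c3 _ _ (by omega)]; decide)
      (fun h => by rw [c0 _ _ (by omega)]; decide)
    have f2 := fixp hρ 1 (k - 1) (by omega) 1 (by rw [c1 _ _ (by omega)]; decide)
      (fun h => by omega)
    rw [show k - 2 + 1 = k - 1 by omega] at e1
    rw [show k - 1 + 1 = k by omega] at e2 f2
    rw [show k - 3 + 1 = k - 2 by omega] at f1
    have n1 : pt k 1 (k - 2) ≠ pt k 1 (k - 1) := fun h => by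
      have := (pt_inj ⟨by omega, by omega⟩ ⟨by omega, by omega⟩ h).2; omega
    have n2 : pt k 1 (k - 1) ≠ pt k 1 k := fun h => by
      have := (pt_inj ⟨by omega, by omega⟩ ⟨by omega, by omega⟩ h).2; omega
    have n3 : pt k 1 (k - 2) ≠ pt k 1 k := fun h => by
      have := (pt_inj ⟨by omega, by omega⟩ ⟨by omega, by omega⟩ h).2; omega
    -- `x → y → z → x`
    have s1 : (ρ 1 * ρ 2) (pt k 1 (k - 2)) = pt k 1 (k - 1) := by rw [Perm.mul_apply, f1, e1.1]
    have s2 : (ρ 1 * ρ 2) (pt k 1 (k - 1)) = pt k 1 k := by rw [Perm.mul_apply, e2.1, f2]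
    have s3 : (ρ 1 * ρ 2) (pt k 1 k) = pt k 1 (k - 2) := by rw [Perm.mul_apply, e2.2, e1.2]
    apply three _ (pt k 1 (k - 2)) (pt k 1 (k - 1)) (pt k 1 k) n1 n2 n3
    · rw [p20s _ _ _ _ s1 s2 s3]; exact n3.symm
    · rw [p20s _ _ _ _ s2 s3 s1]; exact n1
    · rw [p20s _ _ _ _ s3 s1 s2]; exact n2
    · intro v
      rcases vv v with rfl | ⟨t, d, h1, h2, rfl⟩
      · left; exact p20' _ _ D.2.1
      rcases tt t with rfl | rfl | rfl
      · left; exact P0 d h1 h2
      · by_cases hd : d ≤ 3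
        · left
          apply p20'
          rcases (by omega : d = 1 ∨ d = 2 ∨ d = 3) with rfl | rfl | rfl
          · exact D.2.2.1
          · exact D.2.2.2.1
          · exact D.2.2.2.2
        · by_cases hd' : d ≤ k - 3
          · left
            exact A ((d - 4) / 4) (by omega) d (by omega) (by omega)
          · right
            rcases (by omega : d = k - 2 ∨ d = k - 1 ∨ d = k) with h | h | h
            · left; rw [h]
            · right; left; rw [h]
            · right; right; rw [h]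
      · left
        by_cases hd : d = 1
        · subst hd; exact p20' _ _ D.1
        · by_cases hd' : d = k
          · subst hd'
            have g1 := fixp hρ 2 (d - 1) (by omega) 1 (by rw [c1 _ _ (by omega)]; decide) (fun h => by omega)
            have g2 := fixp hρ 2 (d - 1) (by omega) 2 (by rw [c1 _ _ (by omega)]; decide) (fun h => by omega)
            rw [show d - 1 + 1 = d by omega] at g1 g2
            exact p20 _ _ (comp1 _ _ _ g1 g2)
          · exact B ((d - 2) / 4) (by omega) d (by omega) (by omega)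

end Pool.Agent.K4H11.DB
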