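import Pool.Agent.K4H11.DB.Tree

/-!
# The colouring 0,1,2,1,0,1,2,1,… for odd `k`: the group contains a three-cycle
-/

set_option autoImplicit false

open Equiv MulAction

namespace Pool.Agent.K4H11.DB

/-- the vertex of `P_t` at distance `d` from the centre (the centre for `d = 0` and for `d > k`) -/
def pt (k : ℕ) (t : ZMod 3) (d : ℕ) : V k := if h : 0 < d ∧ d ≤ k then some (t, ⟨d - 1, by omega⟩) else none

theorem pt_zero (k : ℕ) (t : ZMod 3) : pt k t 0 = none := by simp [pt]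

theorem pt_eq {k : ℕ} (t : ZMod 3) (d : ℕ) (h : 0 < d ∧ d ≤ k) : pt k t d = some (t, ⟨d - 1, by omega⟩) := by
  rw [pt, dif_pos h]

theorem pt_inj {k : ℕ} {t t' : ZMod 3} {d d' : ℕ} (h : 0 < d ∧ d ≤ k) (h' : 0 < d' ∧ d' ≤ k)
    (he : pt k t d = pt k t' d') : t = t' ∧ d = d' := by
  rw [pt_eq t d h, pt_eq t' d' h'] at he
  simp only [Option.some.injEq, Prod.mk.injEq] at he
  have := congrArg Fin.val he.2
  simp at this
  exact ⟨he.1, by omega⟩

theorem edge {k : ℕ} {c : Fin k → ZMod 3} {ρ : ZMod 3 → Perm (V k)} (hρ : ∀ a, IsRho c a (ρ a))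
    (t : ZMod 3) (d : ℕ) (hd : d < k) (a : ZMod 3) (h : c ⟨d, hd⟩ + t = a) :
    ρ a (pt k t d) = pt k t (d + 1) ∧ ρ a (pt k t (d + 1)) = pt k t d := by
  have h1 := (hρ a).1 t ⟨d, hd⟩ h
  have h2 : pt k t (d + 1) = some (t, ⟨d, hd⟩) := by rw [pt_eq t (d + 1) ⟨by omega, by omega⟩]; rfl
  have h3 : pt k t d = lo t ⟨d, hd⟩ := by
    unfold lo
    by_cases h0 : d = 0
    · subst h0; simp [pt]
    · rw [dif_neg h0, pt_eq t d ⟨by omega, by omega⟩]
  rw [h2, h3]
  exact h1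

theorem fixp {k : ℕ} {c : Fin k → ZMod 3} {ρ : ZMod 3 → Perm (V k)} (hρ : ∀ a, IsRho c a (ρ a))
    (t : ZMod 3) (d : ℕ) (hd : d < k) (a : ZMod 3) (h : c ⟨d, hd⟩ + t ≠ a)
    (h' : ∀ hd' : d + 1 < k, c ⟨d + 1, hd'⟩ + t ≠ a) : ρ a (pt k t (d + 1)) = pt k t (d + 1) := by
  apply (hρ a).2
  have h2 : pt k t (d + 1) = some (t, ⟨d, hd⟩) := by rw [pt_eq t (d + 1) ⟨by omega, by omega⟩]; rfl
  rw [h2]
  intro t' j' hc
  constructor
  · intro he
    unfold lo at he
    split_ifs at he with h0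
    simp only [Option.some.injEq, Prod.mk.injEq] at he
    obtain ⟨rfl, he⟩ := he
    have := congrArg Fin.val he
    simp at this
    have hj : j' = ⟨d + 1, by have := j'.2; omega⟩ := Fin.ext (by simp; omega)
    rw [hj] at hc
    exact h' _ hc
  · intro he
    simp only [Option.some.injEq, Prod.mk.injEq] at he
    obtain ⟨rfl, rfl⟩ := he
    exact h hc

theorem pow4 {α : Type} (σ : Perm α) (v : α) : (σ ^ 4) v = σ (σ (σ (σ v))) := by
  simp [pow_succ, Perm.mul_apply]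

/-- shape `α, β, α` -/
theorem comp4 {X : Type} (α β : Perm X) (v0 v1 v2 v3 : X) (b0 : β v0 = v0) (a0 : α v0 = v1) (a1 : α v1 = v0)
    (b1 : β v1 = v2) (b2 : β v2 = v1) (a2 : α v2 = v3) (a3 : α v3 = v2) (b3 : β v3 = v3) :
    ((α * β) ^ 4) v0 = v0 ∧ ((α * β) ^ 4) v1 = v1 ∧ ((α * β) ^ 4) v2 = v2 ∧ ((α * β) ^ 4) v3 = v3 := by
  simp only [pow4, Perm.mul_apply, b0, a0, a1, b1, b2, a2, a3, b3, and_self]

/-- shape `β, α, β` -/
theorem comp4' {X : Type} (α β : Perm X) (v0 v1 v2 v3 : X) (a0 : α v0 = v0) (b0 : β v0 = v1) (b1 : β v1 = v0)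
    (a1 : α v1 = v2) (a2 : α v2 = v1) (b2 : β v2 = v3) (b3 : β v3 = v2) (a3 : α v3 = v3) :
    ((α * β) ^ 4) v0 = v0 ∧ ((α * β) ^ 4) v1 = v1 ∧ ((α * β) ^ 4) v2 = v2 ∧ ((α * β) ^ 4) v3 = v3 := by
  simp only [pow4, Perm.mul_apply, b0, a0, a1, b1, b2, a2, a3, b3, and_self]

theorem comp2 {X : Type} (α β : Perm X) (v0 v1 : X) (a0 : α v0 = v1) (a1 : α v1 = v0) (b0 : β v0 = v0)
    (b1 : β v1 = v1) : ((α * β) ^ 4) v0 = v0 ∧ ((α * β) ^ 4) v1 = v1 := by
  simp only [pow4, Perm.mul_apply, b0, a0, a1, b1, and_self]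

theorem comp2' {X : Type} (α β : Perm X) (v0 v1 : X) (a0 : α v0 = v0) (a1 : α v1 = v1) (b0 : β v0 = v1)
    (b1 : β v1 = v0) : ((α * β) ^ 4) v0 = v0 ∧ ((α * β) ^ 4) v1 = v1 := by
  simp only [pow4, Perm.mul_apply, b0, a0, a1, b1, and_self]

theorem comp1 {X : Type} (α β : Perm X) (v0 : X) (a0 : α v0 = v0) (b0 : β v0 = v0) : ((α * β) ^ 4) v0 = v0 := by
  simp only [pow4, Perm.mul_apply, b0, a0]

/-- a permutation moving exactly three points -/
theorem three {X : Type} [Fintype X] [DecidableEq X] (τ : Perm X) (x y z : X) (hxy : x ≠ y) (hyz : y ≠ z)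
    (hxz : x ≠ z) (h1 : τ x ≠ x) (h2 : τ y ≠ y) (h3 : τ z ≠ z) (h : ∀ v, τ v = v ∨ v = x ∨ v = y ∨ v = z) :
    τ.IsThreeCycle := by
  rw [← card_support_eq_three_iff]
  have : τ.support = {x, y, z} := by
    ext v
    simp only [Perm.mem_support, Finset.mem_insert, Finset.mem_singleton]
    constructor
    · intro hv
      rcases h v with h | h
      · exact absurd h hv
      · exact h
    · rintro (rfl | rfl | rfl)
      · exact h1
      · exact h2
      · exact h3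
  rw [this, Finset.card_eq_three]
  exact ⟨x, y, z, hxy, hxz, hyz, rfl⟩

theorem odd3 (k : ℕ) (hk : 3 ≤ k) (ho : k % 2 = 1) (c : Fin k → ZMod 3)
    (hc : ∀ j : Fin k, c j = if (j : ℕ) % 4 = 0 then 0 else if (j : ℕ) % 4 = 2 then 2 else 1)
    (ρ : ZMod 3 → Perm (V k)) (hρ : ∀ a, IsRho c a (ρ a)) : ∃ σ ∈ G ρ, σ.IsThreeCycle := by
  have mem : ∀ a, ρ a ∈ G ρ := fun a => Subgroup.subset_closure ⟨a, rfl⟩
  refine ⟨(ρ 1 * ρ 2) ^ 4, pow_mem (mul_mem (mem 1) (mem 2)) 4, ?_⟩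
  -- colours
  have c0 : ∀ (d : ℕ) (hd : d < k), d % 4 = 0 → c ⟨d, hd⟩ = 0 := fun d hd h => by rw [hc]; simp [h]
  have c1 : ∀ (d : ℕ) (hd : d < k), d % 4 = 1 → c ⟨d, hd⟩ = 1 := fun d hd h => by rw [hc]; simp [h]
  have c2 : ∀ (d : ℕ) (hd : d < k), d % 4 = 2 → c ⟨d, hd⟩ = 2 := fun d hd h => by rw [hc]; simp [h]
  have c3 : ∀ (d : ℕ) (hd : d < k), d % 4 = 3 → c ⟨d, hd⟩ = 1 := fun d hd h => by rw [hc]; simp [h]
  -- the path `P_0`: blocks of four
  have A : ∀ i : ℕ, 4 * i + 4 ≤ k → ∀ d, 4 * i + 1 ≤ d → d ≤ 4 * i + 4 →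
      ((ρ 1 * ρ 2) ^ 4) (pt k 0 d) = pt k 0 d := by
    intro i hi d h1 h2
    have e1 := edge hρ 0 (4 * i + 1) (by omega) 1 (by rw [c1 _ _ (by omega)]; decide)
    have e2 := edge hρ 0 (4 * i + 2) (by omega) 2 (by rw [c2 _ _ (by omega)]; decide)
    have e3 := edge hρ 0 (4 * i + 3) (by omega) 1 (by rw [c3 _ _ (by omega)]; decide)
    have f1 := fixp hρ 0 (4 * i) (by omega) 2 (by rw [c0 _ _ (by omega)]; decide)
      (fun h => by rw [c1 _ _ (by omega)]; decide)
    have f2 := fixp hρ 0 (4 * i + 3) (by omega) 2 (by rw [c3 _ _ (by omega)]; decide)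
      (fun h => by rw [c0 _ _ (by omega)]; decide)
    obtain ⟨g0, g1, g2, g3⟩ := comp4 (ρ 1) (ρ 2) (pt k 0 (4 * i + 1)) (pt k 0 (4 * i + 2)) (pt k 0 (4 * i + 3))
      (pt k 0 (4 * i + 4)) f1 e1.1 e1.2 e2.1 e2.2 e3.1 e3.2 f2
    have : d = 4 * i + 1 ∨ d = 4 * i + 2 ∨ d = 4 * i + 3 ∨ d = 4 * i + 4 := by omega
    rcases this with rfl | rfl | rfl | rfl
    · exact g0
    · exact g1
    · exact g2
    · exact g3
  -- the path `P_1`: blocks of four
  have B : ∀ i : ℕ, 4 * i + 6 ≤ k → ∀ d, 4 * i + 3 ≤ d → d ≤ 4 * i + 6 →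
      ((ρ 1 * ρ 2) ^ 4) (pt k 1 d) = pt k 1 d := by
    intro i hi d h1 h2
    have e1 := edge hρ 1 (4 * i + 3) (by omega) 2 (by rw [c3 _ _ (by omega)]; decide)
    have e2 := edge hρ 1 (4 * i + 4) (by omega) 1 (by rw [c0 _ _ (by omega)]; decide)
    have e3 := edge hρ 1 (4 * i + 5) (by omega) 2 (by rw [c1 _ _ (by omega)]; decide)
    have f1 := fixp hρ 1 (4 * i + 2) (by omega) 1 (by rw [c2 _ _ (by omega)]; decide)
      (fun h => by rw [c3 _ _ (by omega)]; decide)
    have f2 := fixp hρ 1 (4 * i + 5) (by omega) 1 (by rw [c1 _ _ (by omega)]; decide)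
      (fun h => by rw [c2 _ _ (by omega)]; decide)
    obtain ⟨g0, g1, g2, g3⟩ := comp4' (ρ 1) (ρ 2) (pt k 1 (4 * i + 3)) (pt k 1 (4 * i + 4)) (pt k 1 (4 * i + 5))
      (pt k 1 (4 * i + 6)) f1 e1.1 e1.2 e2.1 e2.2 e3.1 e3.2 f2
    have : d = 4 * i + 3 ∨ d = 4 * i + 4 ∨ d = 4 * i + 5 ∨ d = 4 * i + 6 := by omega
    rcases this with rfl | rfl | rfl | rfl
    · exact g0
    · exact g1
    · exact g2
    · exact g3
  -- the path `P_2`: pairs
  have C : ∀ i : ℕ, 2 * i + 3 ≤ k → ∀ d, 2 * i + 2 ≤ d → d ≤ 2 * i + 3 →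
      ((ρ 1 * ρ 2) ^ 4) (pt k 2 d) = pt k 2 d := by
    intro i hi d h1 h2
    rcases Nat.even_or_odd' i with ⟨m, rfl | rfl⟩
    · -- colour of edge `4m+3` (index `4m+2`) is `2 + 2 = 1`
      have e1 := edge hρ 2 (2 * (2 * m) + 2) (by omega) 1 (by rw [c2 _ _ (by omega)]; decide)
      have f1 := fixp hρ 2 (2 * (2 * m) + 1) (by omega) 2 (by rw [c1 _ _ (by omega)]; decide)
        (fun h => by rw [c2 _ _ (by omega)]; decide)
      have f2 := fixp hρ 2 (2 * (2 * m) + 2) (by omega) 2 (by rw [c2 _ _ (by omega)]; decide)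
        (fun h => by rw [c3 _ _ (by omega)]; decide)
      obtain ⟨g0, g1⟩ := comp2 (ρ 1) (ρ 2) _ _ e1.1 e1.2 f1 f2
      have : d = 2 * (2 * m) + 2 ∨ d = 2 * (2 * m) + 3 := by omega
      rcases this with rfl | rfl
      · exact g0
      · exact g1
    · have e1 := edge hρ 2 (2 * (2 * m + 1) + 2) (by omega) 2 (by rw [c0 _ _ (by omega)]; decide)
      have f1 := fixp hρ 2 (2 * (2 * m + 1) + 1) (by omega) 1 (by rw [c3 _ _ (by omega)]; decide)
        (fun h => by rw [c0 _ _ (by omega)]; decide)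
      have f2 := fixp hρ 2 (2 * (2 * m + 1) + 2) (by omega) 1 (by rw [c0 _ _ (by omega)]; decide)
        (fun h => by rw [c1 _ _ (by omega)]; decide)
      obtain ⟨g0, g1⟩ := comp2' (ρ 1) (ρ 2) _ _ f1 f2 e1.1 e1.2
      have : d = 2 * (2 * m + 1) + 2 ∨ d = 2 * (2 * m + 1) + 3 := by omega
      rcases this with rfl | rfl
      · exact g0
      · exact g1
  -- the centre
  have D : ((ρ 1 * ρ 2) ^ 4) (pt k 2 1) = pt k 2 1 ∧ ((ρ 1 * ρ 2) ^ 4) (none : V k) = none ∧
      ((ρ 1 * ρ 2) ^ 4) (pt k 1 1) = pt k 1 1 ∧ ((ρ 1 * ρ 2) ^ 4) (pt k 1 2) = pt k 1 2 := by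
    have e1 := edge hρ 2 0 (by omega) 2 (by rw [c0 _ _ (by omega)]; decide)
    have e2 := edge hρ 1 0 (by omega) 1 (by rw [c0 _ _ (by omega)]; decide)
    have e3 := edge hρ 1 1 (by omega) 2 (by rw [c1 _ _ (by omega)]; decide)
    have f1 := fixp hρ 2 0 (by omega) 1 (by rw [c0 _ _ (by omega)]; decide)
      (fun h => by rw [c1 _ _ (by omega)]; decide)
    have f2 := fixp hρ 1 1 (by omega) 1 (by rw [c1 _ _ (by omega)]; decide)
      (fun h => by rw [c2 _ _ (by omega)]; decide)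
    rw [pt_zero] at e1 e2
    exact comp4' (ρ 1) (ρ 2) (pt k 2 1) none (pt k 1 1) (pt k 1 2) f1 e1.2 e1.1 e2.1 e2.2 e3.1 e3.2 f2
  have tt : ∀ t : ZMod 3, t = 0 ∨ t = 1 ∨ t = 2 := by decide
  have vv : ∀ v : V k, v = none ∨ ∃ t d, 1 ≤ d ∧ d ≤ k ∧ v = pt k t d := by
    intro v
    rcases v with _ | ⟨t, j⟩
    · left; rfl
    · right
      refine ⟨t, j + 1, by omega, by have := j.2; omega, ?_⟩
      rw [pt_eq t (j + 1) ⟨by omega, by have := j.2; omega⟩]
      rfl
  rcases (by omega : k % 4 = 1 ∨ k % 4 = 3) with h4 | h4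
  · -- special points on `P_1`
    have e1 := edge hρ 1 (k - 2) (by omega) 2 (by rw [c3 _ _ (by omega)]; decide)
    have e2 := edge hρ 1 (k - 1) (by omega) 1 (by rw [c0 _ _ (by omega)]; decide)
    have f1 := fixp hρ 1 (k - 3) (by omega) 1 (by rw [c2 _ _ (by omega)]; decide)
      (fun h => by rw [c3 _ _ (by omega)]; decide)
    have f2 := fixp hρ 1 (k - 1) (by omega) 2 (by rw [c0 _ _ (by omega)]; decide)
      (fun h => by omega)
    rw [show k - 2 + 1 = k - 1 by omega] at e1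
    rw [show k - 1 + 1 = k by omega] at e2 f2
    rw [show k - 3 + 1 = k - 2 by omega] at f1
    have n1 : pt k 1 (k - 2) ≠ pt k 1 (k - 1) := fun h => by
      have := (pt_inj ⟨by omega, by omega⟩ ⟨by omega, by omega⟩ h).2; omega
    have n2 : pt k 1 (k - 1) ≠ pt k 1 k := fun h => by
      have := (pt_inj ⟨by omega, by omega⟩ ⟨by omega, by omega⟩ h).2; omega
    have n3 : pt k 1 (k - 2) ≠ pt k 1 k := fun h => by
      have := (pt_inj ⟨by omega, by omega⟩ ⟨by omega, by omega⟩ h).2; omega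
    apply three _ (pt k 1 (k - 2)) (pt k 1 (k - 1)) (pt k 1 k) n1 n2 n3
    · simp only [pow4, Perm.mul_apply, e1.1, e1.2, e2.1, e2.2, f1, f2]; exact n3.symm
    · simp only [pow4, Perm.mul_apply, e1.1, e1.2, e2.1, e2.2, f1, f2]; exact n1
    · simp only [pow4, Perm.mul_apply, e1.1, e1.2, e2.1, e2.2, f1, f2]; exact n2
    · intro v
      rcases vv v with rfl | ⟨t, d, h1, h2, rfl⟩
      · left; exact D.2.1
      rcases tt t with rfl | rfl | rfl
      · left
        by_cases hd : d = k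
        · subst hd
          have g1 := fixp hρ 0 (d - 1) (by omega) 1 (by rw [c0 _ _ (by omega)]; decide) (fun h => by omega)
          have g2 := fixp hρ 0 (d - 1) (by omega) 2 (by rw [c0 _ _ (by omega)]; decide) (fun h => by omega)
          rw [show d - 1 + 1 = d by omega] at g1 g2
          exact comp1 _ _ _ g1 g2
        · exact A ((d - 1) / 4) (by omega) d (by omega) (by omega)
      · by_cases hd : d ≤ 2
        · left
          rcases (by omega : d = 1 ∨ d = 2) with rfl | rfl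
          · exact D.2.2.1
          · exact D.2.2.2
        · by_cases hd' : d ≤ k - 3
          · left
            exact B ((d - 3) / 4) (by omega) d (by omega) (by omega)
          · right
            rcases (by omega : d = k - 2 ∨ d = k - 1 ∨ d = k) with h | h | h
            · left; rw [h]
            · right; left; rw [h]
            · right; right; rw [h]
      · left
        by_cases hd : d = 1
        · subst hd; exact D.1
        · exact C ((d - 2) / 2) (by omega) d (by omega) (by omega)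
  · -- special points on `P_0`
    have e1 := edge hρ 0 (k - 2) (by omega) 1 (by rw [c1 _ _ (by omega)]; decide)
    have e2 := edge hρ 0 (k - 1) (by omega) 2 (by rw [c2 _ _ (by omega)]; decide)
    have f1 := fixp hρ 0 (k - 3) (by omega) 2 (by rw [c0 _ _ (by omega)]; decide)
      (fun h => by rw [c1 _ _ (by omega)]; decide)
    have f2 := fixp hρ 0 (k - 1) (by omega) 1 (by rw [c2 _ _ (by omega)]; decide)
      (fun h => by omega)
    rw [show k - 2 + 1 = k - 1 by omega] at e1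
    rw [show k - 1 + 1 = k by omega] at e2 f2
    rw [show k - 3 + 1 = k - 2 by omega] at f1
    have n1 : pt k 0 (k - 2) ≠ pt k 0 (k - 1) := fun h => by
      have := (pt_inj ⟨by omega, by omega⟩ ⟨by omega, by omega⟩ h).2; omega
    have n2 : pt k 0 (k - 1) ≠ pt k 0 k := fun h => by
      have := (pt_inj ⟨by omega, by omega⟩ ⟨by omega, by omega⟩ h).2; omega
    have n3 : pt k 0 (k - 2) ≠ pt k 0 k := fun h => by
      have := (pt_inj ⟨by omega, by omega⟩ ⟨by omega, by omega⟩ h).2; omega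
    apply three _ (pt k 0 (k - 2)) (pt k 0 (k - 1)) (pt k 0 k) n1 n2 n3
    · simp only [pow4, Perm.mul_apply, e1.1, e1.2, e2.1, e2.2, f1, f2]; exact n1.symm
    · simp only [pow4, Perm.mul_apply, e1.1, e1.2, e2.1, e2.2, f1, f2]; exact n2.symm
    · simp only [pow4, Perm.mul_apply, e1.1, e1.2, e2.1, e2.2, f1, f2]; exact n3
    · intro v
      rcases vv v with rfl | ⟨t, d, h1, h2, rfl⟩
      · left; exact D.2.1
      rcases tt t with rfl | rfl | rfl
      · by_cases hd' : d ≤ k - 3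
        · left
          exact A ((d - 1) / 4) (by omega) d (by omega) (by omega)
        · right
          rcases (by omega : d = k - 2 ∨ d = k - 1 ∨ d = k) with h | h | h
          · left; rw [h]
          · right; left; rw [h]
          · right; right; rw [h]
      · left
        by_cases hd : d ≤ 2
        · rcases (by omega : d = 1 ∨ d = 2) with rfl | rfl
          · exact D.2.2.1
          · exact D.2.2.2
        · by_cases hd' : d = k
          · subst hd'
            have g1 := fixp hρ 1 (d - 1) (by omega) 1 (by rw [c2 _ _ (by omega)]; decide) (fun h => by omega)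
            have g2 := fixp hρ 1 (d - 1) (by omega) 2 (by rw [c2 _ _ (by omega)]; decide) (fun h => by omega)
            rw [show d - 1 + 1 = d by omega] at g1 g2
            exact comp1 _ _ _ g1 g2
          · exact B ((d - 3) / 4) (by omega) d (by omega) (by omega)
      · left
        by_cases hd : d = 1
        · subst hd; exact D.1
        · exact C ((d - 2) / 2) (by omega) d (by omega) (by omega)

end Pool.Agent.K4H11.DB
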