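import Mathlib

/-!
# Groups generated by three involutions from a three-branch coloured tree: primitivity

Every group `G_φ` is primitive on the `3k + 1` vertices of the tree.

Proof. Let `r` be a `G_φ`-invariant equivalence relation, neither equality nor the universal relation. All classes
have at least two elements. The quotient of the tree is a connected graph on the classes. A class which is moved by
all three generators consists of vertices of degree three, so of the centre only; hence all degrees in the quotient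
are at most two. The class of a leaf is moved only by the colour of the edge at the leaf, and the three leaves have
three different colours, so there are three classes of degree one. But a connected graph with all degrees at most
two has at most two vertices of degree one.
-/

set_option autoImplicit false

open Equiv MulAction
open scoped Pointwise

namespace Pool.Agent.K4H11.DB

/-- The vertices of the tree `T_k`: `none` is the common endpoint `1` of the three paths, and `some (t, j)` is the
vertex of the path `P_t` at distance `j + 1` from it (`j = 0, …, k - 1`). -/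
abbrev V (k : ℕ) : Type := Option (ZMod 3 × Fin k)

/-- The endpoint nearer to the centre of the edge `e^{(t)}_{j+1}`; the other endpoint is `some (t, j)`. -/
def lo {k : ℕ} (t : ZMod 3) (j : Fin k) : V k :=
  if h : (j : ℕ) = 0 then none else some (t, ⟨j - 1, by have := j.2; omega⟩)

/-- `c j` is the colour of the edge number `j + 1` of `P_0`; consecutive edges have different colours. -/
def Admissible {k : ℕ} (c : Fin k → ZMod 3) : Prop :=
  ∀ i j : Fin k, (i : ℕ) + 1 = j → c i ≠ c j

/-- `σ` is the product of the transpositions `(u v)` over all edges `{u, v}` of colour `a`. The edge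
`e^{(t)}_{j+1}` has the endpoints `lo t j`, `some (t, j)` and the colour `c j + t`. -/
def IsRho {k : ℕ} (c : Fin k → ZMod 3) (a : ZMod 3) (σ : Perm (V k)) : Prop :=
  (∀ (t : ZMod 3) (j : Fin k), c j + t = a → σ (lo t j) = some (t, j) ∧ σ (some (t, j)) = lo t j) ∧
  (∀ v : V k, (∀ (t : ZMod 3) (j : Fin k), c j + t = a → v ≠ lo t j ∧ v ≠ some (t, j)) → σ v = v)

/-- `G_φ`, the group generated by `ρ_0, ρ_1, ρ_2`. -/
def G {k : ℕ} (ρ : ZMod 3 → Perm (V k)) : Subgroup (Perm (V k)) := Subgroup.closure (Set.range ρ)

section aux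

variable {k : ℕ} {c : Fin k → ZMod 3} {ρ : ZMod 3 → Perm (V k)}

theorem conn (hρ : ∀ a, IsRho c a (ρ a)) {P : V k → Prop} (h0 : P none) (hs : ∀ a v, P v → P (ρ a v)) : ∀ v, P v := by
  have key : ∀ n : ℕ, ∀ t : ZMod 3, ∀ j : Fin k, (j : ℕ) = n → P (some (t, j)) := by
    intro n
    induction n with
    | zero =>
      intro t j hj
      have h := ((hρ (c j + t)).1 t j rfl).1
      rw [← h]
      apply hs
      simp [lo, hj, h0]
    | succ n ih =>
      intro t j hj
      have h := ((hρ (c j + t)).1 t j rfl).1
      rw [← h]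
      apply hs
      have : lo t j = some (t, ⟨j - 1, by have := j.2; omega⟩) := by
        unfold lo
        rw [dif_neg (by omega)]
      rw [this]
      exact ih t _ (by simp; omega)
  intro v
  rcases v with _ | ⟨t, j⟩
  · exact h0
  · exact key _ t j rfl

/-- a vertex moved by all three generators is the centre -/
theorem centre_of_moved (hρ : ∀ a, IsRho c a (ρ a)) (v : V k) (h : ∀ a, ρ a v ≠ v) : v = none := by
  rcases v with _ | ⟨t, j⟩
  · rfl
  exfalso
  -- some colour is neither `c j + t` nor `c (j+1) + t`
  have : ∃ a : ZMod 3, a ≠ c j + t ∧ ∀ j' : Fin k, (j' : ℕ) = j + 1 → a ≠ c j' + t := by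
    by_cases hj : (j : ℕ) + 1 < k
    · have h3 : ∀ x y : ZMod 3, ∃ a : ZMod 3, a ≠ x ∧ a ≠ y := by decide
      obtain ⟨a, h1, h2⟩ := h3 (c j + t) (c ⟨j + 1, hj⟩ + t)
      refine ⟨a, h1, ?_⟩
      intro j' hj'
      have : j' = ⟨j + 1, hj⟩ := Fin.ext hj'
      rw [this]; exact h2
    · have h3 : ∀ x : ZMod 3, ∃ a : ZMod 3, a ≠ x := by decide
      obtain ⟨a, h1⟩ := h3 (c j + t)
      refine ⟨a, h1, ?_⟩
      intro j' hj'
      have := j'.2
      omega
  obtain ⟨a, h1, h2⟩ := this
  apply h a
  apply (hρ a).2
  intro t' j' hc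
  constructor
  · intro he
    unfold lo at he
    split_ifs at he with h0
    · simp only [Option.some.injEq, Prod.mk.injEq] at he
      obtain ⟨rfl, he⟩ := he
      have hj' : (j' : ℕ) = j + 1 := by
        have := congrArg Fin.val he
        simp at this
        omega
      exact h2 j' hj' hc.symm
  · intro he
    simp only [Option.some.injEq, Prod.mk.injEq] at he
    obtain ⟨rfl, rfl⟩ := he
    exact h1 hc.symm

/-- a leaf is moved only by the colour of its edge -/
theorem leaf_fixed (hρ : ∀ a, IsRho c a (ρ a)) (t : ZMod 3) (j : Fin k) (hj : (j : ℕ) + 1 = k) (a : ZMod 3)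
    (ha : a ≠ c j + t) : ρ a (some (t, j)) = some (t, j) := by
  apply (hρ a).2
  intro t' j' hc
  constructor
  · intro he
    unfold lo at he
    split_ifs at he with h0
    · simp only [Option.some.injEq, Prod.mk.injEq] at he
      obtain ⟨rfl, he⟩ := he
      have := congrArg Fin.val he
      simp at this
      have := j'.2
      omega
  · intro he
    simp only [Option.some.injEq, Prod.mk.injEq] at he
    obtain ⟨rfl, rfl⟩ := he
    exact ha hc.symm

theorem invol {a : ZMod 3} {σ : Perm (V k)} (h : IsRho c a σ) (v : V k) : σ (σ v) = v := by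
  by_cases hv : ∀ (t : ZMod 3) (j : Fin k), c j + t = a → v ≠ lo t j ∧ v ≠ some (t, j)
  · rw [h.2 v hv, h.2 v hv]
  · push Not at hv
    obtain ⟨t, j, hcj, hv⟩ := hv
    by_cases h1 : v = lo t j
    · rw [h1, (h.1 t j hcj).1, (h.1 t j hcj).2]
    · rw [hv h1, (h.1 t j hcj).2, (h.1 t j hcj).1]

end aux

/-- the combinatorial core: an invariant equivalence relation is equality or universal -/
theorem core {k : ℕ} (hk : 1 ≤ k) {c : Fin k → ZMod 3} {ρ : ZMod 3 → Perm (V k)}
    (hρ : ∀ a, IsRho c a (ρ a)) (r : Setoid (V k)) (hr : ∀ a v w, r v w → r (ρ a v) (ρ a w)) :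
    (∀ v w, r v w → v = w) ∨ (∀ v w, r v w) := by
  classical
  by_contra hcon
  push Not at hcon
  obtain ⟨⟨p, q, hpq, hne⟩, ⟨p', q', hpq'⟩⟩ := hcon
  -- every class has two elements
  have two : ∀ v : V k, ∃ w, w ≠ v ∧ r v w := by
    have hinv : ∀ a v, (∃ w, w ≠ v ∧ r v w) → ∃ w, w ≠ ρ a v ∧ r (ρ a v) w := by
      rintro a v ⟨w, hw, hvw⟩
      exact ⟨ρ a w, fun h => hw ((ρ a).injective h), hr a v w hvw⟩
    have hnone : ∃ w, w ≠ (none : V k) ∧ r none w := by
      by_contra h0
      have : ∀ v : V k, ¬ ∃ w, w ≠ v ∧ r v w := by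
        apply conn (P := fun v => ¬ ∃ w, w ≠ v ∧ r v w) hρ h0
        intro a v hv hv'
        apply hv
        have := hinv a (ρ a v) hv'
        rwa [invol (hρ a)] at this
      exact this p ⟨q, hne.symm, hpq⟩
    exact conn (P := fun v => ∃ w, w ≠ v ∧ r v w) hρ hnone hinv
  let Q := Quotient r
  let f : ZMod 3 → Q → Q := fun a => Quotient.map (ρ a) (hr a)
  have f_mk : ∀ a v, f a (Quotient.mk r v) = Quotient.mk r (ρ a v) := fun a v => rfl
  have f_inv : ∀ a x, f a (f a x) = x := by
    intro a x
    induction x using Quotient.inductionOn with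
    | h v => rw [f_mk, f_mk, invol (hρ a)]
  let Gr : SimpleGraph Q :=
    { Adj := fun x y => x ≠ y ∧ ∃ a, f a x = y
      symm := ⟨by
        rintro x y ⟨h1, a, h2⟩
        exact ⟨h1.symm, a, by rw [← h2, f_inv]⟩⟩
      loopless := ⟨fun x h => h.1 rfl⟩ }
  have hconn : Gr.Connected := by
    have : Nonempty Q := ⟨Quotient.mk r none⟩
    have h1 : ∀ v : V k, Gr.Reachable (Quotient.mk r none) (Quotient.mk r v) := by
      apply conn (P := fun v => Gr.Reachable (Quotient.mk r none) (Quotient.mk r v)) hρ (SimpleGraph.Reachable.refl _)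
      intro a v hv
      refine hv.trans ?_
      by_cases h : Quotient.mk r v = Quotient.mk r (ρ a v)
      · rw [h]
      · exact SimpleGraph.Adj.reachable ⟨h, a, f_mk a v⟩
    refine SimpleGraph.Connected.mk ?_
    intro x y
    induction x using Quotient.inductionOn with
    | h v =>
      induction y using Quotient.inductionOn with
      | h w => exact (h1 v).symm.trans (h1 w)
  -- degrees
  let D : Q → Finset (ZMod 3) := fun x => Finset.univ.filter (fun a => f a x ≠ x)
  have hdeg : ∀ x, Gr.degree x ≤ (D x).card := by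
    intro x
    have : Gr.neighborFinset x ⊆ (D x).image (fun a => f a x) := by
      intro y hy
      rw [SimpleGraph.mem_neighborFinset] at hy
      obtain ⟨h1, a, h2⟩ := hy
      rw [Finset.mem_image]
      refine ⟨a, ?_, h2⟩
      simp only [D, Finset.mem_filter, Finset.mem_univ, true_and]
      rw [h2]; exact h1.symm
    calc Gr.degree x = (Gr.neighborFinset x).card := rfl
      _ ≤ ((D x).image (fun a => f a x)).card := Finset.card_le_card this
      _ ≤ (D x).card := Finset.card_image_le
  have hD2 : ∀ x, (D x).card ≤ 2 := by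
    intro x
    induction x using Quotient.inductionOn with
    | h v =>
      by_contra h
      have h3 : D (Quotient.mk r v) = Finset.univ := by
        apply Finset.eq_univ_of_card
        have : (D (Quotient.mk r v)).card ≤ Fintype.card (ZMod 3) := Finset.card_le_univ _
        have h3 : Fintype.card (ZMod 3) = 3 := ZMod.card 3
        omega
      have hall : ∀ w, r v w → ∀ a, ρ a w ≠ w := by
        intro w hw a ha
        have : a ∈ D (Quotient.mk r v) := by rw [h3]; exact Finset.mem_univ _
        simp only [D, Finset.mem_filter, Finset.mem_univ, true_and] at this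
        apply this
        have hvw : Quotient.mk r v = Quotient.mk r w := Quotient.sound hw
        rw [hvw, f_mk, ha]
      obtain ⟨w, hw, hvw⟩ := two v
      have e1 := centre_of_moved hρ v (hall v (r.refl v))
      have e2 := centre_of_moved hρ w (hall w hvw)
      exact hw (e2.trans e1.symm)
  -- the leaves
  let last : Fin k := ⟨k - 1, by omega⟩
  have hlast : (last : ℕ) + 1 = k := by simp [last]; omega
  let ℓ : ZMod 3 → Q := fun t => Quotient.mk r (some (t, last))
  have hDl : ∀ t, D (ℓ t) ⊆ {c last + t} := by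
    intro t a ha
    simp only [D, Finset.mem_filter, Finset.mem_univ, true_and] at ha
    rw [Finset.mem_singleton]
    by_contra hne
    apply ha
    simp only [ℓ]
    rw [f_mk, leaf_fixed hρ t last hlast a hne]
  have hlinj : Function.Injective ℓ := by
    intro t t' htt
    by_contra hne
    have hempty : D (ℓ t) = ∅ := by
      apply Finset.eq_empty_of_forall_notMem
      intro a ha
      have h1 := Finset.mem_singleton.1 (hDl t ha)
      have h2 : a ∈ D (ℓ t') := by rw [← htt]; exact ha
      have h3 := Finset.mem_singleton.1 (hDl t' h2)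
      apply hne
      rw [h1] at h3
      exact add_left_cancel h3
    have hfix : ∀ a, f a (ℓ t) = ℓ t := by
      intro a
      by_contra h
      have : a ∈ D (ℓ t) := by simp only [D, Finset.mem_filter, Finset.mem_univ, true_and]; exact h
      rw [hempty] at this
      simp at this
    -- then everything is in one class
    have hstep : ∀ a v, Quotient.mk r v = ℓ t → Quotient.mk r (ρ a v) = ℓ t := by
      intro a v hv
      rw [← f_mk, hv, hfix]
    have h0 : Quotient.mk r none = ℓ t := by
      by_contra h0
      have : ∀ v : V k, Quotient.mk r v ≠ ℓ t := by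
        apply conn (P := fun v => Quotient.mk r v ≠ ℓ t) hρ h0
        intro a v hv hv'
        apply hv
        have := hstep a (ρ a v) hv'
        rwa [invol (hρ a)] at this
      exact this (some (t, last)) rfl
    have hall := conn (P := fun v => Quotient.mk r v = ℓ t) hρ h0 hstep
    apply hpq'
    exact Quotient.exact ((hall p').trans (hall q').symm)
  have hsum : ∑ x, Gr.degree x = 2 * Gr.edgeFinset.card := SimpleGraph.sum_degrees_eq_twice_card_edges Gr
  have hcard := hconn.card_vert_le_card_edgeSet_add_one
  rw [Nat.card_eq_fintype_card, Nat.card_eq_fintype_card, ← SimpleGraph.edgeFinset_card] at hcard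
  -- upper bound of the sum of the degrees
  let S : Finset Q := Finset.univ.image ℓ
  have hS : S.card = 3 := by
    rw [Finset.card_image_of_injective _ hlinj, Finset.card_univ, ZMod.card]
  have hle : ∀ x, Gr.degree x + (if x ∈ S then 1 else 0) ≤ 2 := by
    intro x
    split_ifs with hx
    · rw [Finset.mem_image] at hx
      obtain ⟨t, -, rfl⟩ := hx
      have h1 := hdeg (ℓ t)
      have h2 : (D (ℓ t)).card ≤ 1 := by
        have := Finset.card_le_card (hDl t)
        simpa using this
      omega
    · have h1 := hdeg x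
      have h2 := hD2 x
      omega
  have hbound : ∑ x, (Gr.degree x + (if x ∈ S then 1 else 0)) ≤ ∑ _x : Q, 2 := Finset.sum_le_sum (fun x _ => hle x)
  rw [Finset.sum_add_distrib, Finset.sum_const, Finset.card_univ, smul_eq_mul] at hbound
  have hcS : ∑ x : Q, (if x ∈ S then 1 else 0) = S.card := by simp
  rw [hcS, hS, hsum] at hbound
  omega


theorem preprim {k : ℕ} (hk : 1 ≤ k) {c : Fin k → ZMod 3} {ρ : ZMod 3 → Perm (V k)}
    (hρ : ∀ a, IsRho c a (ρ a)) : IsPreprimitive (G ρ) (V k) := by
  have mem : ∀ a, ρ a ∈ G ρ := fun a => Subgroup.subset_closure ⟨a, rfl⟩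
  have htr : IsPretransitive (G ρ) (V k) := by
    have h1 : ∀ v : V k, ∃ g : G ρ, g • (none : V k) = v := by
      apply conn (P := fun v => ∃ g : G ρ, g • (none : V k) = v) hρ ⟨1, one_smul _ _⟩
      rintro a v ⟨g, hg⟩
      refine ⟨⟨ρ a, mem a⟩ * g, ?_⟩
      rw [mul_smul, hg]; rfl
    refine ⟨fun v w => ?_⟩
    obtain ⟨g, hg⟩ := h1 v
    obtain ⟨h, hh⟩ := h1 w
    exact ⟨h * g⁻¹, by rw [mul_smul, ← hg, inv_smul_smul, hh]⟩
  refine { toIsPretransitive := htr, isTrivialBlock_of_isBlock := ?_ }
  intro B hB
  rcases B.eq_empty_or_nonempty with rfl | ⟨b, hb⟩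
  · left; exact Set.subsingleton_empty
  have hfix : ∀ (g : G ρ) (v : V k), v ∈ B → g • v ∈ B → g • B = B := by
    intro g v h1 h2
    exact (isBlock_iff_smul_eq_of_mem.1 hB) h1 h2
  let r : Setoid (V k) :=
    { r := fun v w => ∃ g : G ρ, g • v ∈ B ∧ g • w ∈ B
      iseqv := by
        refine ⟨fun v => ?_, fun {v w} => ?_, fun {u v w} => ?_⟩
        · obtain ⟨g, hg⟩ := exists_smul_eq (G ρ) v b
          exact ⟨g, by rw [hg]; exact hb, by rw [hg]; exact hb⟩
        · rintro ⟨g, h1, h2⟩; exact ⟨g, h2, h1⟩
        · rintro ⟨g, h1, h2⟩ ⟨h, h3, h4⟩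
          refine ⟨g, h1, ?_⟩
          have h5 : (g * h⁻¹) • (h • v) ∈ B := by
            rw [mul_smul, inv_smul_smul]; exact h2
          have h6 := hfix (g * h⁻¹) (h • v) h3 h5
          have h7 : (g * h⁻¹) • (h • w) ∈ (g * h⁻¹) • B := Set.smul_mem_smul_set h4
          rw [h6, mul_smul, inv_smul_smul] at h7
          exact h7 }
  have hr : ∀ a v w, r v w → r (ρ a v) (ρ a w) := by
    rintro a v w ⟨g, h1, h2⟩
    refine ⟨g * (⟨ρ a, mem a⟩ : G ρ)⁻¹, ?_, ?_⟩
    · have : (g * (⟨ρ a, mem a⟩ : G ρ)⁻¹) • (ρ a v) = g • v := by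
        rw [mul_smul]
        congr 1
        exact inv_smul_smul (⟨ρ a, mem a⟩ : G ρ) v
      rw [this]; exact h1
    · have : (g * (⟨ρ a, mem a⟩ : G ρ)⁻¹) • (ρ a w) = g • w := by
        rw [mul_smul]
        congr 1
        exact inv_smul_smul (⟨ρ a, mem a⟩ : G ρ) w
      rw [this]; exact h2
  rcases core hk hρ r hr with h | h
  · left
    intro v hv w hw
    exact h v w ⟨1, by rw [one_smul]; exact hv, by rw [one_smul]; exact hw⟩
  · right
    apply Set.eq_univ_of_forall
    intro w
    obtain ⟨g, h1, h2⟩ := h b w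
    have h3 := hfix g b hb h1
    have h4 : g⁻¹ • (g • w) ∈ g⁻¹ • B := Set.smul_mem_smul_set h2
    have h5 : g⁻¹ • B = B := by
      conv_lhs => rw [← h3]
      rw [inv_smul_smul]
    rw [inv_smul_smul, h5] at h4
    exact h4


/-- the product of the transpositions of colour `a` over the first `m` edges of each path -/
def R {k : ℕ} (c : Fin k → ZMod 3) (a : ZMod 3) : ℕ → Perm (V k)
  | 0 => 1
  | m + 1 => if h : m < k then swap (lo (a - c ⟨m, h⟩) ⟨m, h⟩) (some (a - c ⟨m, h⟩, ⟨m, h⟩)) * R c a m else R c a m

section R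

variable {k : ℕ} {c : Fin k → ZMod 3}

theorem lo_ne_hi (t : ZMod 3) (j : Fin k) (t' : ZMod 3) (j' : Fin k) (h : (j : ℕ) ≤ j') :
    lo t j ≠ some (t', j') := by
  intro he
  unfold lo at he
  split_ifs at he with h0
  simp only [Option.some.injEq, Prod.mk.injEq] at he
  have := congrArg Fin.val he.2
  simp at this
  omega

theorem lo_ne_lo (t : ZMod 3) (j : Fin k) (t' : ZMod 3) (j' : Fin k) (h : (j : ℕ) < j') :
    lo t j ≠ lo t' j' := by
  intro he
  unfold lo at he
  split_ifs at he with h0 h1 h1
  · omega
  · simp only [Option.some.injEq, Prod.mk.injEq] at he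
    have := congrArg Fin.val he.2
    simp at this
    omega

/-- two edges of the same colour have no common end: far end of an earlier edge, near end of a later edge -/
theorem hi_ne_lo (hc : Admissible c) (t : ZMod 3) (j : Fin k) (t' : ZMod 3) (j' : Fin k)
    (he : c j + t = c j' + t') : some (t, j) ≠ lo t' j' := by
  intro h
  unfold lo at h
  split_ifs at h with h0
  simp only [Option.some.injEq, Prod.mk.injEq] at h
  obtain ⟨rfl, h⟩ := h
  have h1 := congrArg Fin.val h
  simp at h1
  exact hc j j' (by omega) (add_right_cancel he)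

/-- the invariants of `R c a m` -/
theorem R_spec (hc : Admissible c) (a : ZMod 3) (m : ℕ) :
    (∀ (t : ZMod 3) (j : Fin k), (j : ℕ) < m → c j + t = a →
      R c a m (lo t j) = some (t, j) ∧ R c a m (some (t, j)) = lo t j) ∧
    (∀ v : V k, (∀ (t : ZMod 3) (j : Fin k), (j : ℕ) < m → c j + t = a → v ≠ lo t j ∧ v ≠ some (t, j)) →
      R c a m v = v) := by
  induction m with
  | zero => exact ⟨fun t j h => absurd h (by omega), fun v _ => rfl⟩
  | succ m ih =>
    by_cases hm : m < k
    · set M : Fin k := ⟨m, hm⟩ with hM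
      set t0 : ZMod 3 := a - c M with ht0
      have hR : R c a (m + 1) = swap (lo t0 M) (some (t0, M)) * R c a m := by
        simp only [R, dif_pos hm, ← hM, ← ht0]
      have hcol : c M + t0 = a := by rw [ht0]; abel
      have fix1 : R c a m (lo t0 M) = lo t0 M := by
        apply ih.2
        intro t j hj hcj
        exact ⟨(lo_ne_lo t j t0 M hj).symm, (hi_ne_lo hc t j t0 M (hcj.trans hcol.symm)).symm⟩
      have fix2 : R c a m (some (t0, M)) = some (t0, M) := by
        apply ih.2
        intro t j hj hcj
        refine ⟨(lo_ne_hi t j t0 M hj.le).symm, ?_⟩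
        intro h
        simp only [Option.some.injEq, Prod.mk.injEq] at h
        have := congrArg Fin.val h.2
        simp [hM] at this
        omega
      have hne : ∀ (t : ZMod 3) (j : Fin k), (j : ℕ) < m → c j + t = a →
          (some (t, j) : V k) ≠ lo t0 M ∧ (some (t, j) : V k) ≠ some (t0, M) ∧ lo t j ≠ lo t0 M ∧
            lo t j ≠ some (t0, M) := by
        intro t j hj hcj
        refine ⟨hi_ne_lo hc t j t0 M (hcj.trans hcol.symm), ?_, lo_ne_lo t j t0 M hj, lo_ne_hi t j t0 M hj.le⟩
        intro h
        simp only [Option.some.injEq, Prod.mk.injEq] at h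
        have := congrArg Fin.val h.2
        simp [hM] at this
        omega
      rw [hR]
      constructor
      · intro t j hj hcj
        rcases Nat.lt_succ_iff_lt_or_eq.1 hj with hj | hj
        · obtain ⟨h1, h2⟩ := ih.1 t j hj hcj
          obtain ⟨n1, n2, n3, n4⟩ := hne t j hj hcj
          rw [Perm.mul_apply, Perm.mul_apply, h1, h2, swap_apply_of_ne_of_ne n1 n2, swap_apply_of_ne_of_ne n3 n4]
          exact ⟨rfl, rfl⟩
        · have hjM : j = M := Fin.ext hj
          subst hjM
          have htt : t = t0 := by rw [ht0, ← hcj]; abel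
          subst htt
          rw [Perm.mul_apply, Perm.mul_apply, fix1, fix2, swap_apply_left, swap_apply_right]
          exact ⟨rfl, rfl⟩
      · intro v hv
        have h1 : R c a m v = v := ih.2 v (fun t j hj hcj => hv t j (by omega) hcj)
        obtain ⟨n1, n2⟩ := hv t0 M (by simp [hM]) hcol
        rw [Perm.mul_apply, h1, swap_apply_of_ne_of_ne n1 n2]
    · have hR : R c a (m + 1) = R c a m := by simp only [R, dif_neg hm]
      rw [hR]
      constructor
      · intro t j hj hcj
        exact ih.1 t j (by have := j.2; omega) hcj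
      · intro v hv
        exact ih.2 v (fun t j hj hcj => hv t j (by omega) hcj)

theorem R_isRho (hc : Admissible c) (a : ZMod 3) : IsRho c a (R c a k) := by
  obtain ⟨h1, h2⟩ := R_spec hc a k
  exact ⟨fun t j h => h1 t j j.2 h, fun v hv => h2 v (fun t j _ h => hv t j h)⟩

theorem isRho_unique {a : ZMod 3} {σ τ : Perm (V k)} (hσ : IsRho c a σ) (hτ : IsRho c a τ) : σ = τ := by
  ext1 v
  by_cases hv : ∀ (t : ZMod 3) (j : Fin k), c j + t = a → v ≠ lo t j ∧ v ≠ some (t, j)
  · rw [hσ.2 v hv, hτ.2 v hv]
  · push Not at hv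
    obtain ⟨t, j, hcj, hv⟩ := hv
    by_cases h1 : v = lo t j
    · rw [h1, (hσ.1 t j hcj).1, (hτ.1 t j hcj).1]
    · rw [hv h1, (hσ.1 t j hcj).2, (hτ.1 t j hcj).2]

theorem card_support_R (hc : Admissible c) (a : ZMod 3) (m : ℕ) (hm : m ≤ k) :
    (R c a m).support.card = 2 * m := by
  induction m with
  | zero => simp [R]
  | succ m ih =>
    have hm' : m < k := hm
    set M : Fin k := ⟨m, hm'⟩ with hM
    set t0 : ZMod 3 := a - c M with ht0
    have hR : R c a (m + 1) = swap (lo t0 M) (some (t0, M)) * R c a m := by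
      simp only [R, dif_pos hm', ← hM, ← ht0]
    have hcol : c M + t0 = a := by rw [ht0]; abel
    obtain ⟨-, ih2⟩ := R_spec hc a m
    have fix1 : R c a m (lo t0 M) = lo t0 M := by
      apply ih2
      intro t j hj hcj
      exact ⟨(lo_ne_lo t j t0 M hj).symm, (hi_ne_lo hc t j t0 M (hcj.trans hcol.symm)).symm⟩
    have fix2 : R c a m (some (t0, M)) = some (t0, M) := by
      apply ih2
      intro t j hj hcj
      refine ⟨(lo_ne_hi t j t0 M hj.le).symm, ?_⟩
      intro h
      simp only [Option.some.injEq, Prod.mk.injEq] at h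
      have := congrArg Fin.val h.2
      simp [hM] at this
      omega
    have hdisj : (swap (lo t0 M) (some (t0, M))).Disjoint (R c a m) := by
      intro v
      by_cases h1 : v = lo t0 M
      · right; rw [h1, fix1]
      · by_cases h2 : v = some (t0, M)
        · right; rw [h2, fix2]
        · left; exact swap_apply_of_ne_of_ne h1 h2
    rw [hR, hdisj.card_support_mul, Perm.card_support_swap (lo_ne_hi t0 M t0 M le_rfl), ih hm'.le]
    ring

end R


section cycle

/-- insertion of one more point in a cycle -/
theorem ins {α : Type} [DecidableEq α] (σ : Perm α) (S : α → Prop) (x y : α) (hx : S x) (hy : ¬ S y)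
    (h : (∀ v, ¬ S v → σ v = v) ∧ (∀ v, S v → S (σ v)) ∧ (∀ v w, S v → S w → σ.SameCycle v w)) :
    (∀ v, ¬ (S v ∨ v = y) → (swap x y * σ) v = v) ∧
    (∀ v, (S v ∨ v = y) → (S ((swap x y * σ) v) ∨ (swap x y * σ) v = y)) ∧
    (∀ v w, (S v ∨ v = y) → (S w ∨ w = y) → (swap x y * σ).SameCycle v w) := by
  obtain ⟨hfix, hS, hcyc⟩ := h
  set τ := swap x y * σ with hτ
  have hτy : τ y = x := by rw [hτ, Perm.mul_apply, hfix y hy, swap_apply_right]
  have hA : ∀ v, S v → τ.SameCycle v (σ v) := by
    intro v hv
    by_cases h1 : σ v = x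
    · have h2 : τ v = y := by rw [hτ, Perm.mul_apply, h1, swap_apply_left]
      have h3 : τ (τ v) = σ v := by rw [h2, hτy, h1]
      rw [← h3, Perm.sameCycle_apply_right, Perm.sameCycle_apply_right]
    · have h2 : σ v ≠ y := fun h => hy (h ▸ hS v hv)
      have h3 : τ v = σ v := by rw [hτ, Perm.mul_apply, swap_apply_of_ne_of_ne h1 h2]
      rw [← h3, Perm.sameCycle_apply_right]
  have hB : ∀ n : ℕ, ∀ v, S v → τ.SameCycle v ((σ ^ n) v) ∧ S ((σ ^ n) v) := by
    intro n
    induction n with
    | zero => intro v hv; exact ⟨by simpa using Perm.SameCycle.refl τ v, by simpa using hv⟩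
    | succ n ih =>
      intro v hv
      obtain ⟨h1, h2⟩ := ih v hv
      rw [pow_succ', Perm.mul_apply]
      exact ⟨h1.trans (hA _ h2), hS _ h2⟩
  have hC : ∀ v w, S v → S w → τ.SameCycle v w := by
    intro v w hv hw
    obtain ⟨i, hi⟩ := hcyc v w hv hw
    rcases Int.eq_nat_or_neg i with ⟨n, rfl | rfl⟩
    · have := (hB n v hv).1
      rw [zpow_natCast] at hi
      rwa [hi] at this
    · have h1 : (σ ^ n) w = v := by
        rw [← hi, zpow_neg, zpow_natCast]
        exact (σ ^ n).apply_symm_apply v
      have := (hB n w hw).1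
      rw [h1] at this
      exact this.symm
  have hyx : τ.SameCycle y x := by rw [← hτy, Perm.sameCycle_apply_right]
  refine ⟨?_, ?_, ?_⟩
  · intro v hv
    push Not at hv
    have h1 := hfix v hv.1
    rw [hτ, Perm.mul_apply, h1, swap_apply_of_ne_of_ne (fun h => hv.1 (by rw [h]; exact hx)) hv.2]
  · rintro v (hv | rfl)
    · by_cases h1 : σ v = x
      · right; rw [hτ, Perm.mul_apply, h1, swap_apply_left]
      · left
        have h2 : σ v ≠ y := fun h => hy (h ▸ hS v hv)
        rw [hτ, Perm.mul_apply, swap_apply_of_ne_of_ne h1 h2]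
        exact hS v hv
    · left; rw [hτy]; exact hx
  · rintro v w (hv | rfl) (hw | rfl)
    · exact hC v w hv hw
    · exact (hC v x hv hx).trans hyx.symm
    · exact hyx.trans (hC x w hx hw)
    · exact Perm.SameCycle.refl _ _

variable {k : ℕ} {c : Fin k → ZMod 3}

/-- the vertices at distance at most `m` from the centre -/
def S (k m : ℕ) : V k → Prop := fun v => ∀ (t : ZMod 3) (j : Fin k), v = some (t, j) → (j : ℕ) < m

theorem R_out (hc : Admissible c) (a : ZMod 3) (m : ℕ) (v : V k) (hv : ¬ S k m v) : R c a m v = v := by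
  unfold S at hv
  push Not at hv
  obtain ⟨t, j, rfl, hj⟩ := hv
  apply (R_spec hc a m).2
  intro t' j' hj' _
  refine ⟨(lo_ne_hi t' j' t j (by omega)).symm, ?_⟩
  intro h
  simp only [Option.some.injEq, Prod.mk.injEq] at h
  have := congrArg Fin.val h.2
  omega

theorem R_in (hc : Admissible c) (a : ZMod 3) (m : ℕ) (v : V k) (hv : S k m v) : S k m (R c a m v) := by
  by_contra h
  have h1 := R_out hc a m _ h
  have h2 := (R c a m).injective h1
  rw [h2] at h
  exact h hv

theorem S_lo (t : ZMod 3) (j : Fin k) : S k j (lo t j) := by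
  intro t' j' h
  by_contra hj
  exact lo_ne_hi t j t' j' (by omega) h

theorem cyc (hc : Admissible c) (m : ℕ) (hm : m ≤ k) :
    (∀ v, ¬ S k m v → (R c 0 m * R c 1 m * R c 2 m) v = v) ∧
    (∀ v, S k m v → S k m ((R c 0 m * R c 1 m * R c 2 m) v)) ∧
    (∀ v w, S k m v → S k m w → (R c 0 m * R c 1 m * R c 2 m).SameCycle v w) := by
  induction m with
  | zero =>
    refine ⟨fun v _ => rfl, fun v hv => hv, ?_⟩
    intro v w hv hw
    have h0 : ∀ u : V k, S k 0 u → u = none := by
      intro u hu
      rcases u with _ | ⟨t, j⟩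
      · rfl
      · exact absurd (hu t j rfl) (by omega)
    rw [h0 v hv, h0 w hw]
  | succ m ih =>
    have hm' : m < k := hm
    have ih := ih hm'.le
    set M : Fin k := ⟨m, hm'⟩ with hM
    set A := R c 0 m with hA
    set B := R c 1 m with hB
    set C := R c 2 m with hC
    let t : ZMod 3 → ZMod 3 := fun a => a - c M
    have hR : ∀ a, R c a (m + 1) = swap (lo (t a) M) (some (t a, M)) * R c a m := by
      intro a; simp only [R, dif_pos hm', ← hM, t]
    have hyout : ∀ s : ZMod 3, ¬ S k m (some (s, M)) := by
      intro s h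
      have := h s M rfl
      simp [hM] at this
    have hxin : ∀ s : ZMod 3, S k m (lo s M) := fun s => S_lo s M
    have e1 : A * swap (lo (t 1) M) (some (t 1, M)) = swap (A (lo (t 1) M)) (some (t 1, M)) * A := by
      rw [mul_swap_eq_swap_mul, R_out hc 0 m _ (hyout (t 1))]
    have e2 : A * B * swap (lo (t 2) M) (some (t 2, M)) =
        swap ((A * B) (lo (t 2) M)) (some (t 2, M)) * (A * B) := by
      rw [mul_swap_eq_swap_mul]
      have : (A * B) (some (t 2, M)) = some (t 2, M) := by
        rw [Perm.mul_apply, hB, R_out hc 1 m _ (hyout (t 2)), hA, R_out hc 0 m _ (hyout (t 2))]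
      rw [this]
    have e3 : R c 0 (m + 1) * R c 1 (m + 1) * R c 2 (m + 1) =
        swap (lo (t 0) M) (some (t 0, M)) * (swap (A (lo (t 1) M)) (some (t 1, M)) *
          (swap ((A * B) (lo (t 2) M)) (some (t 2, M)) * (A * B * C))) := by
      rw [hR 0, hR 1, hR 2, ← hA, ← hB, ← hC]
      calc _ = swap (lo (t 0) M) (some (t 0, M)) * (A * swap (lo (t 1) M) (some (t 1, M))) * B *
            swap (lo (t 2) M) (some (t 2, M)) * C := by group
        _ = swap (lo (t 0) M) (some (t 0, M)) * swap (A (lo (t 1) M)) (some (t 1, M)) *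
            (A * B * swap (lo (t 2) M) (some (t 2, M))) * C := by rw [e1]; group
        _ = _ := by rw [e2]; group
    have tne : ∀ a b : ZMod 3, a ≠ b → (some (t a, M) : V k) ≠ some (t b, M) := by
      intro a b hab h
      simp only [Option.some.injEq, Prod.mk.injEq, t, sub_left_inj] at h
      exact hab h.1
    have i1 := ins (A * B * C) (S k m) ((A * B) (lo (t 2) M)) (some (t 2, M))
      (by rw [Perm.mul_apply]; exact R_in hc 0 m _ (R_in hc 1 m _ (hxin _))) (hyout _) ih
    have i2 := ins _ (fun v => S k m v ∨ v = some (t 2, M)) (A (lo (t 1) M)) (some (t 1, M))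
      (Or.inl (R_in hc 0 m _ (hxin _)))
      (by rintro (h | h)
          · exact hyout _ h
          · exact tne 1 2 (by decide) h) i1
    have i3 := ins _ (fun v => (S k m v ∨ v = some (t 2, M)) ∨ v = some (t 1, M)) (lo (t 0) M) (some (t 0, M))
      (Or.inl (Or.inl (hxin _)))
      (by rintro ((h | h) | h)
          · exact hyout _ h
          · exact tne 0 2 (by decide) h
          · exact tne 0 1 (by decide) h) i2
    rw [← e3] at i3
    have hSiff : ∀ v, S k (m + 1) v ↔ (((S k m v ∨ v = some (t 2, M)) ∨ v = some (t 1, M)) ∨ v = some (t 0, M)) := by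
      intro v
      constructor
      · intro hv
        rcases v with _ | ⟨s, j⟩
        · left; left; left; intro t' j' h; exact absurd h (by simp)
        · have hj := hv s j rfl
          rcases Nat.lt_succ_iff_lt_or_eq.1 hj with hj | hj
          · left; left; left
            intro t' j' h
            simp only [Option.some.injEq, Prod.mk.injEq] at h
            rw [← h.2]; exact hj
          · have hjM : j = M := Fin.ext hj
            subst hjM
            have h3 : ∀ x y : ZMod 3, x = 2 - y ∨ x = 1 - y ∨ x = 0 - y := by decide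
            rcases h3 s (c M) with h | h | h
            · left; left; right; rw [h]
            · left; right; rw [h]
            · right; rw [h]
      · have haux : ∀ s : ZMod 3, S k (m + 1) (some (s, M)) := by
          intro s t' j' h
          simp only [Option.some.injEq, Prod.mk.injEq] at h
          rw [← h.2]
          simp [hM]
        rintro (((h | h) | h) | h)
        · intro t' j' h'
          have := h t' j' h'
          omega
        · rw [h]; exact haux _
        · rw [h]; exact haux _
        · rw [h]; exact haux _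
    obtain ⟨j1, j2, j3⟩ := i3
    refine ⟨fun v hv => j1 v (fun h => hv ((hSiff v).2 h)), fun v hv => (hSiff _).2 (j2 v ((hSiff v).1 hv)),
      fun v w hv hw => j3 v w ((hSiff v).1 hv) ((hSiff w).1 hw)⟩

end cycle

end Pool.Agent.K4H11.DB
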